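import Pool.Agent.Helper38.WY.Goals3
import Pool.Agent.Helper70.PW.LPRM
import Pool.Agent.Helper53.PW.LCLO
import Pool.Agent.Helper27.PW.LDEN
import Pool.Agent.Helper14.PW.LRT
import Pool.Agent.Helper15.PW.LISO
import Pool.Agent.Helper6.PW.LIDX
import Pool.Agent.Helper6.PW.LLAT
import Pool.Agent.Helper32.PW.WTHT
import Pool.Agent.Helper32.PB.XLCF

/-!
# Project WY (MP_fc6b1e_nt), packet WY-F_LCP: the norm residue map at a prime above `p` which is not split
-/

set_option autoImplicit false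

namespace Pool.Agent.Helper32.WY

open NumberField Module IsDedekindDomain Finset
open Pool.Agent.Helper51.RP Pool.Agent.Helper42.RD Pool.Agent.Helper42.PP Pool.Agent.Helper42.PW
open Pool.Agent.Helper40.RD (valW bel_of_above)
open Pool.Agent.Helper40.RS (bel efg)

theorem nonempty_hom (F A : Type) [Field F] [Field A] [Algebra F A] [IsAlgClosed A] :
    Nonempty (AlgebraicClosure F →+* A) :=
  ⟨(IsAlgClosed.lift (R := F) (S := AlgebraicClosure F) (M := A)).toRingHom⟩

/-- The local statement: `t : F → 𝓔`, `x ↦ N x = ∏ G^i x`. -/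
theorem local_part {p : ℕ} [hp : Fact p.Prime] {H : Type} [NormedField H] [NormedAlgebra ℚ_[p] H]
    [IsUltrametricDist H] [FiniteDimensional ℚ_[p] H] (h4 : L_RT) (h5 : L_ISO)
    (G : H ≃ₐ[ℚ_[p]] H) (w : H) (hw : ‖w - 1‖ ≤ (1 / p : ℝ) ^ 3) (hG : G w = w) :
    ∃ z : H, z ≠ 0 ∧ ∏ i ∈ Finset.range p, (G ^ i) z = w := by
  obtain ⟨v, hv, hv1⟩ := (h4 p H).1 w hw
  have hGv : G v = v := by
    refine (h4 p H).2 _ _ ?_ ?_ hv1
    · rw [← map_pow, hv, hG]
    · have e : G v - 1 = G (v - 1) := by rw [map_sub, map_one]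
      rw [e, h5 p H G]
      exact hv1
  have hGi : ∀ i : ℕ, (G ^ i) v = v := by
    intro i
    induction i with
    | zero => rfl
    | succ i ih =>
      rw [pow_succ]
      show (G ^ i) (G v) = v
      rw [hGv, ih]
  refine ⟨v, ?_, ?_⟩
  · rintro rfl
    have hp1 : (1 : ℝ) < p := by exact_mod_cast hp.out.one_lt
    have hp2 : (1 / p : ℝ) ^ 2 < 1 := by
      refine pow_lt_one₀ (by positivity) ?_ (by norm_num)
      rw [div_lt_one (by linarith)]
      exact hp1
    rw [zero_sub, norm_neg, norm_one] at hv1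
    linarith
  · rw [Finset.prod_congr rfl fun i _ => hGi i, Finset.prod_const, Finset.card_range, hv]

theorem f_lcp : Pool.Agent.Helper38.WY.F_LCP := by
  classical
  intro p hp F E _ _ _ _ _ _ hdeg v W hab hvp hnf
  obtain rfl := bel_of_above hab
  have h1 := Pool.Agent.Helper70.PW.l_prm
  have h2 := Pool.Agent.Helper53.PW.l_clo
  have h3 := Pool.Agent.Helper27.PW.l_den
  have h4 := Pool.Agent.Helper14.PW.l_rt
  have h5 := Pool.Agent.Helper15.PW.l_iso
  have h6 := Pool.Agent.Helper6.PW.l_idx h5 Pool.Agent.Helper6.PW.l_lat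
  have hne : Nonempty (AlgebraicClosure ℚ →+* ℂ_[p]) :=
    nonempty_hom ℚ ℂ_[p]
  -- the prime and the embedding
  have hWp : W.valuation E (p : E) < 1 := by
    have e1 : (p : E) = algebraMap F E (p : F) := (map_natCast (algebraMap F E) p).symm
    rw [e1, valW]
    refine pow_lt_one₀ zero_le hvp ?_
    rw [Ideal.ramificationIdx'_eq_ramificationIdx _ _ (bel F W).ne_bot]
    intro h0
    have e2 := efg (K := F) W
    rw [h0, zero_mul, mul_zero, hdeg] at e2
    exact hp.out.ne_zero e2.symm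
  obtain ⟨τ, hτ⟩ := h1 p ℂ_[p] hne E W hWp
  have hp1 : (1 : ℝ) < p := by exact_mod_cast hp.out.one_lt
  have hp3 : (1 / p : ℝ) ^ 3 < 1 := by
    refine pow_lt_one₀ (by positivity) ?_ (by norm_num)
    rw [div_lt_one (by linarith)]
    exact hp1
  have hp3' : (0 : ℝ) < (1 / p : ℝ) ^ 3 := by positivity
  have hτp : ‖τ ((p : E) ^ 3)‖ = (1 / p : ℝ) ^ 3 := by
    have e : τ ((p : E) ^ 3) = algebraMap ℚ_[p] ℂ_[p] ((p : ℚ_[p]) ^ 3) := by
      rw [map_pow, map_natCast, map_pow, map_natCast]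
    rw [e, norm_algebraMap', norm_pow, Padic.norm_p, one_div]
  have hcl : ∀ x : F, Cl p (bel F W) x → ‖τ (algebraMap F E x) - 1‖ ≤ (1 / p : ℝ) ^ 3 := by
    intro x hx
    have e1 : W.valuation E (algebraMap F E x - 1) ≤ W.valuation E ((p : E) ^ 3) := by
      have e2 : algebraMap F E x - 1 = algebraMap F E (x - 1) := by rw [map_sub, map_one]
      have e3 : ((p : E) ^ 3) = algebraMap F E ((p : F) ^ 3) := by rw [map_pow, map_natCast]
      rw [e2, e3, valW, valW, map_pow]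
      exact pow_le_pow_left₀ zero_le hx.2 _
    have e4 := (hτ _ _).1 e1
    rw [hτp, map_sub, map_one] at e4
    exact e4
  have hdec : ∀ g : E ≃ₐ[F] E, (∀ y, ‖τ (g y)‖ = ‖τ y‖) ↔
      ∀ y : E, W.valuation E (g y) = W.valuation E y := by
    intro g
    constructor
    · intro h y
      exact le_antisymm ((hτ _ _).2 (h y).le) ((hτ _ _).2 (h y).ge)
    · intro h y
      exact le_antisymm ((hτ _ _).1 (h y).le) ((hτ _ _).1 (h y).ge)
  -- the generator
  obtain ⟨σ, hσ, hσ1⟩ : ∃ σ : E ≃ₐ[F] E, (∀ y : E, W.valuation E (σ y) = W.valuation E y) ∧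
      σ ≠ 1 := by
    by_contra hc
    apply hnf
    intro g hg
    by_contra hg1
    exact hc ⟨g, hg, hg1⟩
  have hcard : Nat.card (E ≃ₐ[F] E) = p := by rw [IsGalois.card_aut_eq_finrank, hdeg]
  have hord : orderOf σ = p := by
    have e1 : orderOf σ ∣ p := by rw [← hcard]; exact orderOf_dvd_natCard σ
    exact ((Nat.dvd_prime hp.out).1 e1).resolve_left fun h => hσ1 (orderOf_eq_one_iff.1 h)
  have hgen : ∀ g : E ≃ₐ[F] E, ∃ j ∈ Finset.range p, σ ^ j = g := by
    have e1 : (Finset.range p).image (fun j => σ ^ j) = Finset.univ := by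
      apply Finset.eq_univ_of_card
      rw [Finset.card_image_of_injOn, Finset.card_range, ← hcard, Nat.card_eq_fintype_card]
      intro i hi j hj hij
      have hi' : i < orderOf σ := by rw [hord]; exact Finset.mem_range.1 hi
      have hj' : j < orderOf σ := by rw [hord]; exact Finset.mem_range.1 hj
      exact pow_injOn_Iio_orderOf hi' hj' hij
    intro g
    have e2 : g ∈ (Finset.range p).image (fun j => σ ^ j) := by rw [e1]; exact Finset.mem_univ g
    obtain ⟨j, hj, hjg⟩ := Finset.mem_image.1 e2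
    exact ⟨j, hj, hjg⟩
  have hinj : ∀ i ∈ Finset.range p, ∀ j ∈ Finset.range p, σ ^ i = σ ^ j → i = j := by
    intro i hi j hj hij
    have hi' : i < orderOf σ := by rw [hord]; exact Finset.mem_range.1 hi
    have hj' : j < orderOf σ := by rw [hord]; exact Finset.mem_range.1 hj
    exact pow_injOn_Iio_orderOf hi' hj' hij
  have hstp : ∀ (j : ℕ) (y : E), W.valuation E ((σ ^ j) y) = W.valuation E y := by
    intro j
    induction j with
    | zero => intro y; rfl
    | succ j ih =>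
      intro y
      rw [pow_succ]
      show W.valuation E ((σ ^ j) (σ y)) = _
      rw [ih, hσ]
  -- the closure
  obtain ⟨𝓔, hfd, h, hdense, hext⟩ := h2 p ℂ_[p] E τ
  let t : E →+* 𝓔 := τ.codRestrict 𝓔 h
  have ht : ∀ x, ((t x : 𝓔) : ℂ_[p]) = τ x := fun _ => rfl
  obtain ⟨G, hG⟩ := hext (σ : E ≃+* E) fun x => (hdec σ).2 hσ x
  have hG' : ∀ x, G (t x) = t (σ x) := fun x => Subtype.ext (hG x)
  have hGj : ∀ (j : ℕ) (x : E), (G ^ j) (t x) = t ((σ ^ j) x) := by
    intro j
    induction j with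
    | zero => intro x; rfl
    | succ j ih =>
      intro x
      rw [pow_succ, pow_succ]
      show (G ^ j) (G (t x)) = t ((σ ^ j) (σ x))
      rw [hG', ih]
  have hGF : ∀ (j : ℕ) (x : F), (G ^ j) (t (algebraMap F E x)) = t (algebraMap F E x) := by
    intro j x
    rw [hGj, AlgEquiv.commutes]
  have hσp : σ ^ p = 1 := orderOf_dvd_iff_pow_eq_one.1 (by rw [hord])
  have hGp : G ^ p = 1 := by
    ext y
    have hy : ∀ e : ℝ, 0 < e → ‖(G ^ p) y - y‖ ≤ e := by
      intro e he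
      obtain ⟨x, hx⟩ := hdense y y.2 e he
      have hx' : ‖y - t x‖ < e := hx
      have e1 : (G ^ p) y - y = (G ^ p) (y - t x) + (t x - y) := by
        rw [map_sub, hGj, hσp]
        show _ = _ - t x + (t x - y)
        ring
      rw [e1]
      refine (IsUltrametricDist.norm_add_le_max _ _).trans (max_le ?_ ?_)
      · rw [h5 p 𝓔 (G ^ p)]
        exact hx'.le
      · rw [norm_sub_rev]
        exact hx'.le
    have h8 : ‖(G ^ p) y - y‖ ≤ 0 := le_of_forall_pos_le_add fun e he => by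
      rw [zero_add]
      exact hy e he
    have h9 : (G ^ p) y - y = 0 := norm_le_zero_iff.1 h8
    exact congrArg (fun z : 𝓔 => (z : ℂ_[p])) (sub_eq_zero.1 h9)
  have hG1 : G ≠ 1 := by
    intro hG1
    apply hσ1
    ext y
    have e1 : t (σ y) = t y := by rw [← hG', hG1]; rfl
    exact t.injective e1
  have hGo : orderOf G = p := orderOf_eq_prime hGp hG1
  -- the norm
  let Nm : 𝓔 → 𝓔 := fun z => ∏ i ∈ Finset.range p, (G ^ i) z
  have hNmul : ∀ a b : 𝓔, Nm (a * b) = Nm a * Nm b := by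
    intro a b
    show ∏ i ∈ Finset.range p, (G ^ i) (a * b) = _
    rw [Finset.prod_congr rfl fun i _ => map_mul (G ^ i) a b, Finset.prod_mul_distrib]
  have hN1 : Nm 1 = 1 := by
    show ∏ i ∈ Finset.range p, (G ^ i) (1 : 𝓔) = 1
    rw [Finset.prod_congr rfl fun i _ => map_one (G ^ i), Finset.prod_const_one]
  have hNinv : ∀ a : 𝓔, a ≠ 0 → Nm a⁻¹ = (Nm a)⁻¹ := by
    intro a ha
    have e1 := hNmul a a⁻¹
    rw [mul_inv_cancel₀ ha, hN1] at e1
    exact eq_inv_of_mul_eq_one_right e1.symm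
  have hNF : ∀ x : F, Nm (t (algebraMap F E x)) = t (algebraMap F E x) ^ p := by
    intro x
    show ∏ i ∈ Finset.range p, (G ^ i) (t (algebraMap F E x)) = _
    rw [Finset.prod_congr rfl fun i _ => hGF i x, Finset.prod_const, Finset.card_range]
  have hNE : ∀ y : E, Nm (t y) = t (algebraMap F E (Algebra.norm F y)) := by
    intro y
    show ∏ i ∈ Finset.range p, (G ^ i) (t y) = _
    rw [Pool.Agent.Helper32.PB.norm_prod, Finset.prod_congr rfl fun i _ => hGj i y, ← map_prod]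
    congr 1
    refine Finset.prod_bij (fun i _ => σ ^ i) (fun i _ => Finset.mem_univ _) ?_ ?_ ?_
    · intro i hi j hj hij
      exact hinj i hi j hj hij
    · intro g _
      obtain ⟨j, hj, hjg⟩ := hgen g
      exact ⟨j, hj, hjg⟩
    · intro i _
      rfl
  -- the group
  let C : Subgroup Fˣ :=
    { carrier := {x | ∃ z : 𝓔, z ≠ 0 ∧ Nm z = t (algebraMap F E (x : F))}
      mul_mem' := by
        rintro x y ⟨z, hz0, hz⟩ ⟨z', hz0', hz'⟩
        refine ⟨z * z', mul_ne_zero hz0 hz0', ?_⟩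
        rw [hNmul, hz, hz', Units.val_mul, map_mul, map_mul]
      one_mem' := ⟨1, one_ne_zero, by rw [hN1, Units.val_one, map_one, map_one]⟩
      inv_mem' := by
        rintro x ⟨z, hz0, hz⟩
        refine ⟨z⁻¹, inv_ne_zero hz0, ?_⟩
        rw [hNinv z hz0, hz, Units.val_inv_eq_inv_val, map_inv₀, map_inv₀] }
  have hCp : ∀ x : Fˣ, x ^ p ∈ C := by
    intro x
    refine ⟨t (algebraMap F E (x : F)), ?_, ?_⟩
    · rw [map_ne_zero, map_ne_zero]
      exact x.ne_zero
    · rw [hNF, Units.val_pow_eq_pow_val, map_pow, map_pow]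
  -- an element outside
  obtain ⟨u, hu0, hGu, hu⟩ := h6 p 𝓔 G hGo
  have hun : 0 < ‖u‖ := norm_pos_iff.2 hu0
  have hGju : ∀ j : ℕ, (G ^ j) u = u := by
    intro j
    induction j with
    | zero => rfl
    | succ j ih =>
      rw [pow_succ]
      show (G ^ j) (G u) = u
      rw [hGu, ih]
  obtain ⟨A, hA, hAx⟩ := h3 p ℂ_[p] F E τ
  obtain ⟨y, hy⟩ := hdense u u.2 ((1 / p : ℝ) ^ 3 * ‖u‖ / (A + 1)) (by positivity)
  have hy' : ‖u - t y‖ < (1 / p : ℝ) ^ 3 * ‖u‖ / (A + 1) := hy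
  obtain ⟨x, hx⟩ := hAx y ((1 / p : ℝ) ^ 3 * ‖u‖ / (A + 1)) (by positivity) (by
    intro g _
    obtain ⟨j, _, rfl⟩ := hgen g
    have e1 : t ((σ ^ j) y) - t y = (G ^ j) (t y - u) + (u - t y) := by
      rw [map_sub, hGj, hGju]
      ring
    have e2 : ‖t ((σ ^ j) y) - t y‖ ≤ (1 / p : ℝ) ^ 3 * ‖u‖ / (A + 1) := by
      rw [e1]
      refine (IsUltrametricDist.norm_add_le_max _ _).trans (max_le ?_ hy'.le)
      rw [h5 p 𝓔 (G ^ j), norm_sub_rev]
      exact hy'.le
    exact e2)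
  have hx' : ‖t (algebraMap F E x) - t y‖ ≤ A * ((1 / p : ℝ) ^ 3 * ‖u‖ / (A + 1)) := hx
  have hxu : ‖t (algebraMap F E x) - u‖ ≤ (1 / p : ℝ) ^ 3 * ‖u‖ := by
    have e1 : t (algebraMap F E x) - u = (t (algebraMap F E x) - t y) + (t y - u) := by ring
    rw [e1]
    have hq : 0 < (1 / p : ℝ) ^ 3 * ‖u‖ / (A + 1) := by positivity
    have hsum : (A + 1) * ((1 / p : ℝ) ^ 3 * ‖u‖ / (A + 1)) = (1 / p : ℝ) ^ 3 * ‖u‖ := by
      field_simp
    refine (IsUltrametricDist.norm_add_le_max _ _).trans (max_le (hx'.trans ?_) ?_)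
    · nlinarith
    · rw [norm_sub_rev]
      refine hy'.le.trans ?_
      nlinarith
  have hxu' : ‖t (algebraMap F E x) * u⁻¹ - 1‖ ≤ (1 / p : ℝ) ^ 3 := by
    have e1 : t (algebraMap F E x) * u⁻¹ - 1 = (t (algebraMap F E x) - u) * u⁻¹ := by
      rw [sub_mul, mul_inv_cancel₀ hu0]
    rw [e1, norm_mul, norm_inv, ← div_eq_mul_inv, div_le_iff₀ hun]
    exact hxu
  have hx0 : x ≠ 0 := by
    rintro rfl
    rw [map_zero, map_zero, zero_mul, zero_sub, norm_neg, norm_one] at hxu'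
    linarith
  have hxC : Units.mk0 x hx0 ∉ C := by
    rintro ⟨z, hz0, hz⟩
    rw [Units.val_mk0] at hz
    obtain ⟨w, hw0, hw⟩ := local_part h4 h5 G (t (algebraMap F E x) * u⁻¹) hxu' (by
      rw [map_mul, map_inv₀, hGu]
      have := hGF 1 x
      rw [pow_one] at this
      rw [this])
    apply hu (z * w⁻¹)
    have e1 : Nm (z * w⁻¹) = u := by
      rw [hNmul, hNinv w hw0, hz]
      have e2 : Nm w = t (algebraMap F E x) * u⁻¹ := hw
      rw [e2, mul_inv, inv_inv]
      have e3 : t (algebraMap F E x) ≠ 0 := by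
        rw [map_ne_zero, map_ne_zero]
        exact hx0
      rw [mul_inv_cancel_left₀ e3]
    exact e1
  obtain ⟨θ, hθ, hθx, hθC⟩ := Pool.Agent.Helper32.PW.exists_functional p C hCp _ hxC
  refine ⟨fun x' => (θ (Units.mk0 x hx0))⁻¹ * θ x', ?_, ?_, ?_, ⟨Units.mk0 x hx0, ?_⟩⟩
  · intro a b
    show (θ (Units.mk0 x hx0))⁻¹ * θ (a * b) = _
    rw [hθ, mul_add]
  · intro a ha
    have e1 : a ∈ C := by
      obtain ⟨w, hw0, hw⟩ := local_part h4 h5 G (t (algebraMap F E (a : F))) (hcl _ ha) (by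
        have := hGF 1 (a : F)
        rwa [pow_one] at this)
      exact ⟨w, hw0, hw⟩
    show (θ (Units.mk0 x hx0))⁻¹ * θ a = 0
    rw [hθC a e1, mul_zero]
  · intro b
    have e1 : nrm F E b ∈ C := by
      refine ⟨t (b : E), ?_, hNE b⟩
      rw [map_ne_zero]
      exact b.ne_zero
    show (θ (Units.mk0 x hx0))⁻¹ * θ (nrm F E b) = 0
    rw [hθC _ e1, mul_zero]
  · show (θ (Units.mk0 x hx0))⁻¹ * θ (Units.mk0 x hx0) = 1
    exact inv_mul_cancel₀ hθx

end Pool.Agent.Helper32.WY
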